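import Pool.Agent.Q275.KC.Reg

/-!
# K3 surfaces: the closure of the rational points is open away from the torsion

`K` is a field of characteristic zero, for example a number field, and `X : w² = f(x₁, …, x_n)`,
`n ≥ 2`, where `f` has degree at most `4` in each variable: an affine open subset of a double cover
of `(ℙ¹)ⁿ` branched along a divisor of multidegree `(4, …, 4)`, for `n = 2` a K3 surface if the
branch curve is smooth. Through each point `T` of `X` there are `n` curves `w² = q(t)` of genus one,
in the directions of the coordinates.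

We consider finite nonempty sets of `p`-adic places of degree one (embeddings of `K` into `ℚ_p`)
over different primes `p`, with or without a real place; for `K = ℚ` these are all the finite sets
of places which contain a finite place. The closure of `X(K)` in the product of the `X(K_v)` is
a neighbourhood of each of its points `T = (T_v)` outside the branch divisor such that for each
direction `j` there is a direction `i` with the following properties, for all `v`:

* the curve in the direction `i` through `T_v` is smooth of genus one, and for the `p`-adic places `v`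
  the difference of the two points `(x, w)`, `(x, -w)` of this curve, where `T_v = (x, w)`, has
  infinite order in its Jacobian,
* `i = j`, or the line in the direction `i` is not special for `j`: the polynomial `∂f / ∂x_j` is not
  a multiple of `f` on the line, and some curve in the direction `j` which meets the line is smooth
  of genus one.

For `n = 2` all but finitely many lines in the direction `i` are not special for `j ≠ i`, if `f` is
not a product of two polynomials in one variable each.
-/

set_option autoImplicit false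
set_option linter.unusedSectionVars false
set_option linter.unusedVariables false

namespace Pool.Agent.Results.MP_ed3816_nt.OpenAwayFromTorsion

open MvPolynomial Pool.Agent.Y720.MZ

/-- The point `(x, w)` lies on the double cover `w² = f(x)`. -/
def OnCover {F : Type} [Field F] {m : ℕ} (f : MvPolynomial (Fin m) F) (P : (Fin m → F) × F) :
    Prop :=
  P.2 ^ 2 = eval P.1 f

/-- The image of a point under an embedding of fields. -/
def image {K F : Type} [Field K] [Field F] (φ : K →+* F) {m : ℕ}
    (P : (Fin m → K) × K) : (Fin m → F) × F :=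
  (fun j => φ (P.1 j), φ P.2)

/-- The closure of the `K`-points in the product of the sets of the `ℚ_[p i]`-points. -/
def Closure {K : Type} [Field K] {m : ℕ} (f : MvPolynomial (Fin m) K) {ι : Type} {p : ι → ℕ}
    [∀ i, Fact (p i).Prime] (σ : ∀ i, K →+* ℚ_[p i]) : Set (∀ i, (Fin m → ℚ_[p i]) × ℚ_[p i]) :=
  closure {S | ∃ P, OnCover f P ∧ S = fun i => image (σ i) P}

/-- The closure of the `K`-points in the product of the set of the real points and of the sets of
the `ℚ_[p i]`-points. -/
def ClosureReal {K : Type} [Field K] {m : ℕ} (f : MvPolynomial (Fin m) K) {ι : Type} {p : ι → ℕ}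
    [∀ i, Fact (p i).Prime] (σ : ∀ i, K →+* ℚ_[p i]) (τ : K →+* ℝ) :
    Set (((Fin m → ℝ) × ℝ) × ∀ i, (Fin m → ℚ_[p i]) × ℚ_[p i]) :=
  closure {S | ∃ P, OnCover f P ∧ S = (image τ P, fun i => image (σ i) P)}

/-- The restriction `q(t) = g(x + t e_i)` of a polynomial to the line through `x` in the direction of
the `i`-th coordinate. -/
noncomputable def line {F : Type} [Field F] {m : ℕ} (g : MvPolynomial (Fin m) F) (x : Fin m → F)
    (i : Fin m) : Polynomial F :=
  aeval (fun k => Polynomial.C (x k) +
    Polynomial.C ((Pi.single i 1 : Fin m → F) k) * Polynomial.X) g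

/-- The Jacobian of the curve `w² = c + q₁ t + q₂ t² + q₃ t³ + q₄ t⁴` of genus one (the cubic
resolvent), `q_k` the coefficients of `q`. -/
noncomputable def jacobian {F : Type} [Field F] (q : Polynomial F) (c : F) : WeierstrassCurve F :=
  ⟨0, q.coeff 2, 0, q.coeff 1 * q.coeff 3 - 4 * c * q.coeff 4,
    q.coeff 1 ^ 2 * q.coeff 4 + c * q.coeff 3 ^ 2 - 4 * c * q.coeff 2 * q.coeff 4⟩

/-- The curve `w² = q(t)` is smooth of genus one. -/
def GenusOne {F : Type} [Field F] (q : Polynomial F) : Prop := (jacobian q (q.coeff 0)).Δ ≠ 0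

/-- The first coordinate, on the Jacobian, of the difference of the two points `(0, w)`, `(0, -w)` of
the curve `w² = q(t)`. -/
noncomputable def abscissa {F : Type} [Field F] (q : Polynomial F) (w : F) : F :=
  q.coeff 1 ^ 2 / (4 * w ^ 2) - q.coeff 2

/-- The second coordinate. -/
noncomputable def ordinate {F : Type} [Field F] (q : Polynomial F) (w : F) : F :=
  (q.coeff 1 * abscissa q w + 2 * w ^ 2 * q.coeff 3) / (2 * w)

/-- The difference of the two points `(0, w)`, `(0, -w)` of the curve `w² = q(t)` has infinite order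
in the Jacobian. -/
def InfiniteOrder {F : Type} [Field F] (q : Polynomial F) (w : F) : Prop :=
  letI : DecidableEq F := Classical.decEq F
  ∀ h : (jacobian q (w ^ 2)).toAffine.Nonsingular (abscissa q w) (ordinate q w),
    ∀ n : ℕ, n ≠ 0 → n • (.some (abscissa q w) (ordinate q w) h :
      (jacobian q (w ^ 2)).toAffine.Point) ≠ 0

/-- Moves along the curve in the direction `i` through the point `T = (x, w)`: the curve is smooth of
genus one and the difference of `(x, w)` and `(x, -w)` has infinite order in its Jacobian. -/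
def Moves {F : Type} [Field F] {m : ℕ} (g : MvPolynomial (Fin m) F) (T : (Fin m → F) × F)
    (i : Fin m) : Prop :=
  GenusOne (line g T.1 i) ∧ InfiniteOrder (line g T.1 i) T.2

/-- The line in the direction `i` through `x` is not special for the direction `j`: the derivative
`∂g / ∂x_j` is not a multiple of `g` on the line, and some curve in the direction `j` which meets the
line is smooth of genus one. -/
def NotSpecial {F : Type} [Field F] {m : ℕ} (g : MvPolynomial (Fin m) F) (x : Fin m → F)
    (i j : Fin m) : Prop :=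
  ¬ line g x i ∣ line (pderiv j g) x i ∧
    ∃ u : F, GenusOne (line g (fun a => x a + u * (Pi.single i 1 : Fin m → F) a) j)

/-- `i = j`, or the line in the direction `i` through `x` is not special for the direction `j`. -/
def Serves {F : Type} [Field F] {m : ℕ} (g : MvPolynomial (Fin m) F) (x : Fin m → F)
    (i j : Fin m) : Prop :=
  i = j ∨ NotSpecial g x i j

/-- The closure is a neighbourhood of `T` in the product of the sets of the local points. -/
def OpenAt {K : Type} [Field K] {m : ℕ} (f : MvPolynomial (Fin m) K) {ι : Type} {p : ι → ℕ}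
    [∀ i, Fact (p i).Prime] (σ : ∀ i, K →+* ℚ_[p i]) (T : ∀ i, (Fin m → ℚ_[p i]) × ℚ_[p i]) :
    Prop :=
  ∃ U ∈ nhds T, ∀ S ∈ U, (∀ v, OnCover (map (σ v) f) (S v)) → S ∈ Closure f σ

/-- The same with a real place. -/
def OpenAtReal {K : Type} [Field K] {m : ℕ} (f : MvPolynomial (Fin m) K) {ι : Type} {p : ι → ℕ}
    [∀ i, Fact (p i).Prime] (σ : ∀ i, K →+* ℚ_[p i]) (τ : K →+* ℝ)
    (T : ((Fin m → ℝ) × ℝ) × ∀ i, (Fin m → ℚ_[p i]) × ℚ_[p i]) : Prop :=
  ∃ U ∈ nhds T, ∀ S ∈ U, OnCover (map τ f) S.1 → (∀ v, OnCover (map (σ v) f) (S.2 v)) →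
    S ∈ ClosureReal f σ τ

section aux

variable {K : Type} [Field K] [CharZero K] {m : ℕ} {f : MvPolynomial (Fin m) K}

omit [CharZero K] in
lemma dist_image {F : Type} [NormedField F] (φ : K →+* F) (P : (Fin m → K) × K)
    (T : (Fin m → F) × F) {η : ℝ} (hη : 0 < η) : dist T (image φ P) < η ↔
      (∀ j, ‖φ (P.1 j) - T.1 j‖ < η) ∧ ‖φ P.2 - T.2‖ < η := by
  rw [dist_comm, Prod.dist_eq, max_lt_iff, dist_pi_lt_iff hη]
  simp only [dist_eq_norm, image]

variable {ι : Type} [Finite ι] {p : ι → ℕ} [hp : ∀ i, Fact (p i).Prime]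

omit [CharZero K] in
lemma fill_p (σ : ∀ i, K →+* ℚ_[p i]) {T : ∀ i, (Fin m → ℚ_[p i]) × ℚ_[p i]}
    (hcl : T ∈ Closure f σ) (hI : IntL σ f (fun i => (T i).1) (fun i => (T i).2)) :
    ∃ U ∈ nhds T, ∀ S ∈ U, (∀ i, OnCover (map (σ i) f) (S i)) → S ∈ Closure f σ := by
  have : Fintype ι := Fintype.ofFinite ι
  obtain ⟨ε, hε, hint⟩ := hI
  obtain ⟨_, ⟨P, hP, rfl⟩, h2⟩ := Metric.mem_closure_iff.1 hcl ε hε
  rw [dist_pi_lt_iff hε] at h2
  refine ⟨Metric.ball T ε, Metric.ball_mem_nhds T hε, fun S hS hSX => ?_⟩
  rw [Metric.mem_ball, dist_pi_lt_iff hε] at hS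
  rw [Closure, Metric.mem_closure_iff]
  intro η hη
  obtain ⟨z, w, k1, k2⟩ := hint P.1 P.2 hP (fun i => (dist_image (σ i) P (T i) hε).1 (h2 i))
    (fun i => (S i).1) (fun i => (S i).2) hSX (fun i => by
      have h3 := hS i
      rw [Prod.dist_eq, max_lt_iff, dist_pi_lt_iff hε] at h3
      simp only [dist_eq_norm] at h3
      exact h3) η hη
  refine ⟨_, ⟨(z, w), k1, rfl⟩, ?_⟩
  rw [dist_pi_lt_iff hη]
  exact fun i => (dist_image (σ i) (z, w) (S i) hη).2 (k2 i)

omit [CharZero K] in
lemma fill_r (σ : ∀ i, K →+* ℚ_[p i]) (τ : K →+* ℝ)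
    {T : ((Fin m → ℝ) × ℝ) × ∀ i, (Fin m → ℚ_[p i]) × ℚ_[p i]}
    (hcl : T ∈ ClosureReal f σ τ) {x : ∀ v : Option ι, Fin m → Lv p v} {y : ∀ v : Option ι, Lv p v}
    (hx0 : x none = T.1.1) (hy0 : y none = T.1.2) (hx : ∀ i, x (some i) = (T.2 i).1)
    (hy : ∀ i, y (some i) = (T.2 i).2)
    (hI : IntL (sv σ τ) f x y) :
    ∃ U ∈ nhds T, ∀ S ∈ U, OnCover (map τ f) S.1 → (∀ i, OnCover (map (σ i) f) (S.2 i)) →
      S ∈ ClosureReal f σ τ := by
  have : Fintype ι := Fintype.ofFinite ι
  obtain ⟨ε, hε, hint⟩ := hI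
  obtain ⟨_, ⟨P, hP, rfl⟩, h2⟩ := Metric.mem_closure_iff.1 hcl ε hε
  rw [Prod.dist_eq, max_lt_iff, dist_pi_lt_iff hε] at h2
  refine ⟨Metric.ball T ε, Metric.ball_mem_nhds T hε, fun S hS hSr hSX => ?_⟩
  rw [Metric.mem_ball, Prod.dist_eq, max_lt_iff, dist_pi_lt_iff hε] at hS
  rw [ClosureReal, Metric.mem_closure_iff]
  intro η hη
  let x' : ∀ v : Option ι, Fin m → Lv p v := fun v =>
    match v with
    | none => S.1.1
    | some i => (S.2 i).1
  let y' : ∀ v : Option ι, Lv p v := fun v =>
    match v with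
    | none => S.1.2
    | some i => (S.2 i).2
  obtain ⟨z, w, k1, k2⟩ := hint P.1 P.2 hP
    (by
      rintro (_ | i)
      · rw [hx0, hy0]
        exact (dist_image τ P T.1 hε).1 h2.1
      · rw [hx, hy]
        exact (dist_image (σ i) P (T.2 i) hε).1 (h2.2 i))
    x' y'
    (by
      rintro (_ | i)
      · exact hSr
      · exact hSX i)
    (by
      rintro (_ | i)
      · have h3 := hS.1
        rw [Prod.dist_eq, max_lt_iff, dist_pi_lt_iff hε] at h3
        simp only [dist_eq_norm] at h3
        rw [hx0, hy0]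
        exact h3
      · have h3 := hS.2 i
        rw [Prod.dist_eq, max_lt_iff, dist_pi_lt_iff hε] at h3
        simp only [dist_eq_norm] at h3
        rw [hx, hy]
        exact h3) η hη
  refine ⟨_, ⟨(z, w), k1, rfl⟩, ?_⟩
  rw [Prod.dist_eq, max_lt_iff, dist_pi_lt_iff hη]
  exact ⟨(dist_image τ (z, w) S.1 hη).2 (k2 none),
    fun i => (dist_image (σ i) (z, w) (S.2 i) hη).2 (k2 (some i))⟩

end aux


section closed

variable {K : Type} [Field K] {m : ℕ} {f : MvPolynomial (Fin m) K} {ι : Type} {p : ι → ℕ}
  [∀ i, Fact (p i).Prime]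

lemma onCover_image {F : Type} [Field F] (φ : K →+* F) {P : (Fin m → K) × K} (h : OnCover f P) :
    OnCover (map φ f) (image φ P) := by
  have k1 : eval (image φ P).1 (map φ f) = φ (eval P.1 f) := by
    rw [eval_map, image]
    exact (eval₂_comp_left φ (RingHom.id K) P.1 f).symm ▸ rfl
  unfold OnCover at *
  rw [k1, ← h, map_pow]
  rfl

lemma isClosed_onCover {F : Type} [NormedField F] (g : MvPolynomial (Fin m) F) :
    IsClosed {P : (Fin m → F) × F | OnCover g P} :=
  isClosed_eq (by fun_prop) ((MvPolynomial.continuous_eval g).comp continuous_fst)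

lemma on_of_closure {σ : ∀ i, K →+* ℚ_[p i]} {T : ∀ i, (Fin m → ℚ_[p i]) × ℚ_[p i]}
    (hT : T ∈ Closure f σ) (i : ι) : OnCover (map (σ i) f) (T i) := by
  have h1 : IsClosed {T : ∀ i, (Fin m → ℚ_[p i]) × ℚ_[p i] | OnCover (map (σ i) f) (T i)} :=
    (isClosed_onCover (map (σ i) f)).preimage
      (f := fun T : ∀ i, (Fin m → ℚ_[p i]) × ℚ_[p i] => T i) (continuous_apply i)
  refine closure_minimal ?_ h1 hT
  rintro _ ⟨P, hP, rfl⟩
  exact onCover_image (σ i) hP

lemma on_of_closureR {σ : ∀ i, K →+* ℚ_[p i]} {τ : K →+* ℝ}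
    {T : ((Fin m → ℝ) × ℝ) × ∀ i, (Fin m → ℚ_[p i]) × ℚ_[p i]}
    (hT : T ∈ ClosureReal f σ τ) : OnCover (map τ f) T.1 ∧ ∀ i, OnCover (map (σ i) f) (T.2 i) := by
  constructor
  · have h1 : IsClosed {T : ((Fin m → ℝ) × ℝ) × ∀ i, (Fin m → ℚ_[p i]) × ℚ_[p i] |
        OnCover (map τ f) T.1} := (isClosed_onCover (map τ f)).preimage continuous_fst
    refine closure_minimal ?_ h1 hT
    rintro _ ⟨P, hP, rfl⟩
    exact onCover_image τ hP
  · intro i
    have h1 : IsClosed {T : ((Fin m → ℝ) × ℝ) × ∀ i, (Fin m → ℚ_[p i]) × ℚ_[p i] |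
        OnCover (map (σ i) f) (T.2 i)} :=
      (isClosed_onCover (map (σ i) f)).preimage
        (f := fun T : ((Fin m → ℝ) × ℝ) × ∀ i, (Fin m → ℚ_[p i]) × ℚ_[p i] => T.2 i)
        ((continuous_apply i).comp continuous_snd)
    refine closure_minimal ?_ h1 hT
    rintro _ ⟨P, hP, rfl⟩
    exact onCover_image (σ i) hP

end closed

section cond

variable {F : Type} [Field F] [CharZero F] {m : ℕ} {g : MvPolynomial (Fin m) F} {x : Fin m → F}
  {i : Fin m}

lemma delta (a b c : F) : (⟨0, a, 0, b, c⟩ : WeierstrassCurve F).Δ = 16 * dsc a b c := by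
  simp only [WeierstrassCurve.Δ, WeierstrassCurve.b₂, WeierstrassCurve.b₄, WeierstrassCurve.b₆,
    WeierstrassCurve.b₈, dsc]
  ring

lemma line_zero : (line g x i).coeff 0 = eval x g := by
  have h1 : (line g x i).eval 0 = eval x g := by
    have := rst_eval g x (Pi.single i 1) 0
    rw [zero_smul, add_zero] at this
    exact this
  rw [← h1, Polynomial.coeff_zero_eq_eval_zero]

lemma genusOne_iff : GenusOne (line g x i) ↔ Tq g (Pi.single i 1) x ≠ 0 := by
  have h1 : (jacobian (line g x i) ((line g x i).coeff 0)).Δ = 16 * Tq g (Pi.single i 1) x := by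
    rw [jacobian, delta, line_zero]
    rfl
  rw [GenusOne, h1]
  exact mul_ne_zero_iff_left (by norm_num)

lemma tr_regular (hd : ∀ j, g.degreeOf j ≤ 4) (hg : GenusOne (line g x i)) {j : Fin m}
    (h : NotSpecial g x i j) : Tr g (Pi.single i 1) (Pi.single j 1) x := by
  obtain ⟨h1, u, hu⟩ := h
  exact Pool.Agent.Q35.KC.tr_of (deg_rst (hd i) x) (genusOne_iff.1 hg) h1
    ⟨u, genusOne_iff.1 hu⟩

lemma io_of {w : F} (hP : OnCover g (x, w)) (h : Moves g (x, w) i) :
    IOt (th g (Pi.single i 1) x w) := by
  let : DecidableEq F := Classical.decEq F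
  refine ⟨?_, h.2⟩
  rw [Tq_eq (show onX g x w from hP)]
  exact genusOne_iff.1 h.1

end cond


/-- **The closure of the rational points is open away from the torsion.** -/
theorem result :
    -- (1) open away from the torsion
    (∀ (K : Type) [Field K] [CharZero K] (n : ℕ) (f : MvPolynomial (Fin n) K),
      -- the degree in each variable is at most four
      (∀ j, f.degreeOf j ≤ 4) →
      -- finite sets of `p`-adic places
      ∀ (ι : Type) [Finite ι] [Nonempty ι] (p : ι → ℕ) [∀ v, Fact (p v).Prime],
        Function.Injective p → ∀ σ : ∀ v, K →+* ℚ_[p v],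
          -- at the points with the following properties the closure is open
          (∀ T ∈ Closure f σ, (∀ v, (T v).2 ≠ 0) →
            (∀ j, ∃ i, ∀ v, Moves (map (σ v) f) (T v) i ∧ Serves (map (σ v) f) (T v).1 i j) →
            OpenAt f σ T) ∧
          -- with a real place
          ∀ τ : K →+* ℝ, ∀ T ∈ ClosureReal f σ τ, T.1.2 ≠ 0 → (∀ v, (T.2 v).2 ≠ 0) →
            (∀ j, ∃ i, (GenusOne (line (map τ f) T.1.1 i) ∧ Serves (map τ f) T.1.1 i j) ∧
              ∀ v, Moves (map (σ v) f) (T.2 v) i ∧ Serves (map (σ v) f) (T.2 v).1 i j) →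
            OpenAtReal f σ τ T) ∧
    -- (2) for surfaces all but finitely many lines are not special
    (∀ (K : Type) [Field K] [CharZero K] (f : MvPolynomial (Fin 2) K),
      (∀ j, f.degreeOf j ≤ 4) → (∀ j, ∃ z : Fin 2 → K, GenusOne (line f z j)) →
      f * pderiv 0 (pderiv 1 f) ≠ pderiv 0 f * pderiv 1 f →
      ∀ (F : Type) [Field F] [CharZero F] (φ : K →+* F) (i j : Fin 2), i ≠ j →
        {c : F | ∃ x : Fin 2 → F, x j = c ∧ ¬ (GenusOne (line (map φ f) x i) ∧
          NotSpecial (map φ f) x i j)}.Finite) := by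
  refine ⟨?_, ?_⟩
  · intro K _ _ n f hd ι _ _ p _ hinj σ
    refine ⟨fun T hT hw hc => ?_, fun τ T hT hw hw' hc => ?_⟩
    · have hon := on_of_closure hT
      have hM : ∀ i, (∀ v, Moves (map (σ v) f) (T v) i) →
          MvL σ f (Pi.single i 1) (fun v => (T v).1) (fun v => (T v).2) := fun i hi =>
        mv_ioL (hw_p hinj σ) (fun z => deg_rst (hd i) z) hw fun v => by
          rw [single_mapα]
          exact io_of (hon v) (hi v)
      refine fill_p σ hT (int_of_mvL hon hw fun j => ?_)
      obtain ⟨i, hi⟩ := hc j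
      by_cases h : i = j
      · subst h; exact hM i fun v => (hi v).1
      · refine mv_transferL (hw_p hinj σ) hon hw (hM i fun v => (hi v).1)
          (fun z => deg_rst (hd j) z) fun v => ?_
        rw [single_mapα, single_mapα]
        exact tr_regular (fun k => degreeOf_map_le (σ v) (hd k)) (hi v).1.1
          ((hi v).2.resolve_left h)
    · obtain ⟨hon1, hon2⟩ := on_of_closureR hT
      let x : ∀ v : Option ι, Fin n → Lv p v := fun v =>
        match v with
        | none => T.1.1
        | some i => (T.2 i).1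
      let y : ∀ v : Option ι, Lv p v := fun v =>
        match v with
        | none => T.1.2
        | some i => (T.2 i).2
      have hon : ∀ v, onX (map (sv σ τ v) f) (x v) (y v) := by
        rintro (_ | v)
        · exact hon1
        · exact hon2 v
      have hwv : ∀ v, y v ≠ 0 := by
        rintro (_ | v)
        · exact hw
        · exact hw' v
      have hM : ∀ i, GenusOne (line (map τ f) T.1.1 i) →
          (∀ v, Moves (map (σ v) f) (T.2 v) i) → MvL (sv σ τ) f (Pi.single i 1) x y := by
        intro i hr hi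
        refine mv_ior hinj (fun z => deg_rst (hd i) z) hon hwv ?_ fun v => ?_
        · rw [single_mapα]
          exact genusOne_iff.1 hr
        · rw [single_mapα]
          exact io_of (hon2 v) (hi v)
      refine fill_r σ τ hT (x := x) (y := y) rfl rfl (fun _ => rfl) (fun _ => rfl)
        (int_of_mvL hon hwv fun j => ?_)
      obtain ⟨i, hr, hi⟩ := hc j
      by_cases h : i = j
      · subst h; exact hM i hr.1 fun v => (hi v).1
      · refine mv_transferL (hw_all hinj σ τ) hon hwv (hM i hr.1 fun v => (hi v).1)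
          (fun z => deg_rst (hd j) z) fun v => ?_
        rw [single_mapα, single_mapα]
        rcases v with _ | v
        · exact tr_regular (fun k => degreeOf_map_le τ (hd k)) hr.1 (hr.2.resolve_left h)
        · exact tr_regular (fun k => degreeOf_map_le (σ v) (hd k)) (hi v).1.1
            ((hi v).2.resolve_left h)
  · intro K _ _ f hd hg hp F _ _ φ i j hij
    refine (Pool.Agent.Q275.KC.reg K f hd (fun j => ?_) hp F φ i j hij).subset ?_
    · obtain ⟨z, hz⟩ := hg j
      exact ⟨z, genusOne_iff.1 hz⟩
    · rintro c ⟨x, hx, hn⟩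
      refine ⟨x, hx, fun hr => hn ⟨genusOne_iff.2 hr.1, ?_⟩⟩
      obtain ⟨h1, u, hu⟩ := hr.2 j (Ne.symm hij)
      exact ⟨h1, u, genusOne_iff.2 hu⟩

end Pool.Agent.Results.MP_ed3816_nt.OpenAwayFromTorsion
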