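import Pool.Agent.Q44.SA.All

/-!
# Rational points near a rational point on determinantal quartic K3 surfaces (helper44)

`K` is a number field, `A 0, …, A 3` are 4 x 4 matrices over `K`, and `X` is the quartic surface
`det (x 0 A 0 + x 1 A 1 + x 2 A 2 + x 3 A 3) = 0` in `ℙ³`. We assume that `X` is irreducible and that the tensor `A` of format
`4 x 4 x 4` is not degenerate: its contractions with any vector `w ≠ 0` over the algebraic closure, in the three
directions, are matrices of rank at least three. This holds for the general `A`. Then `X` is (if it is smooth) a K3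
surface, the general one with Picard number two and without fibration by curves of genus one, and the group of
automorphisms of the general one is infinite cyclic, generated by the automorphism of Cayley and Oguiso. This one sends `x` to
`x'`, where `x, y, z, x'` is the chain of vectors such that `A(x, y, ·) = 0`, `A(·, y, z) = 0` and `A(x', ·, z) = 0`.

`L` is a complete nonarchimedean field with a homomorphism `σ : K →+* L` of dense range, so the completion of `K` at
a finite place. If `X` is smooth, the conjecture that the Brauer-Manin obstruction is the only one to weak approximation on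
K3 surfaces (and the finiteness of `Br(X)/Br_0(X)`) implies that the closure of `X(K)` in the product of the sets `X(L)`,
for finitely many places, is open in it, and so that the rational points close to a given one are Zariski dense. This
consequence is proved here for all rational points outside a finite set `E`, for all finite sets of places outside a fixed finite
set. At these places also the local Zariski closures `Z_x` of the rational points (Mazur) are determined: `Z_x` is empty, a point of
`E`, or `X`. The surfaces have no fibration by curves of genus one in general, so that the earlier methods do not apply.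

Idea of the proof. The matrix `(v a * u b)` of two neighbours `v`, `u` of a vector `w` in the chain is the adjugate matrix of the
contraction of `A` with `w`, up to a factor, so `h(v) + h(u) ≥ 3 h(w) - c`. For the automorphism `φ` this gives
`h(φ P) + h(φ⁻¹ P) ≥ 18 h(P) - c`, so that the heights of the points `φ^k(P)` grow exponentially for all rational points outside
a finite set. At the places of good reduction `φ` is an isometry, so that `φ^(m j)(P)`, `j = 0, 1, …`, are close to `P` for
some `m > 0`. If these points were contained in a curve in `X`, then the coordinates of `φ^(m (j + k))(P)` and of `φ^(m j)(P)` would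
be related by equations of a degree not depending on `k` (all the points of an orbit over an ultrapower of `K`
generate the same field), so that `h(φ^(m (j + k))(P)) ≤ C h(φ^(m j)(P)) + c_k` for infinitely many `j`, with `C` not depending on
`k`. This contradicts the exponential growth.
-/

set_option autoImplicit false

namespace Pool.Agent.Results.MP_ed3816_nt.DeterminantalQuartics

open MvPolynomial

/-- the matrix `∑ w i * A i` -/
def mat {F : Type} [CommRing F] (A : Fin 4 → Fin 4 → Fin 4 → F) (w : Fin 4 → F) : Matrix (Fin 4) (Fin 4) F :=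
  Matrix.of fun j k => ∑ i, A i j k * w i

/-- the equation of the surface `X`: the determinant of the matrix `∑ X i * A i` -/
noncomputable def equation {K : Type} [Field K] (A : Fin 4 → Fin 4 → Fin 4 → K) : MvPolynomial (Fin 4) K :=
  (mat (fun i j k => C (A i j k)) X).det

/-- The contractions of `A` with a vector `w ≠ 0`, in the three directions, have rank at least three (some minor of
format 3 x 3 is not zero). -/
def Nondegenerate {F : Type} [CommRing F] (A : Fin 4 → Fin 4 → Fin 4 → F) : Prop :=
  ∀ w : Fin 4 → F, w ≠ 0 → (mat A w).adjugate ≠ 0 ∧ (mat (fun j k i => A i j k) w).adjugate ≠ 0 ∧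
    (mat (fun k i j => A i j k) w).adjugate ≠ 0

/-- The ideal of the local Zariski closure at the point `x`, over a field `L` containing `K`, of the set of the
rational points of `X`: the polynomials which vanish at (all multiples of) the rational points in a neighbourhood of `x`. -/
def closureIdeal {K L : Type} [Field K] [NontriviallyNormedField L] (A : Fin 4 → Fin 4 → Fin 4 → K) (σ : K →+* L)
    (x : Fin 4 → L) : Set (MvPolynomial (Fin 4) K) :=
  {f | ∃ U ∈ nhds x, ∀ y : Fin 4 → K, y ≠ 0 → (mat A y).det = 0 → (∃ c : L, c ≠ 0 ∧ c • (σ ∘ y) ∈ U) →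
    ∀ t : K, eval (t • y) f = 0}

/-- the ideal of the point `e` -/
def pointIdeal {K : Type} [Field K] (e : Fin 4 → K) : Set (MvPolynomial (Fin 4) K) :=
  {f | ∀ t : K, eval (t • e) f = 0}

theorem closureIdeal_eq {K L : Type} [Field K] [NontriviallyNormedField L] (A : Fin 4 → Fin 4 → Fin 4 → K)
    (σ : K →+* L) (x : Fin 4 → L) :
    closureIdeal A σ x = Pool.Agent.Q44.SA.closureIdeal σ (Ideal.span {Pool.Agent.Q44.SA.Ten.matP A |>.det}) x := by
  ext f
  constructor
  · rintro ⟨U, hU, h⟩
    refine ⟨U, hU, fun y hy => ?_⟩
    have := (Pool.Agent.Q44.SA.pt_iff A y).mp hy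
    exact h y this.1 this.2
  · rintro ⟨U, hU, h⟩
    refine ⟨U, hU, fun y hy hy' => ?_⟩
    exact h y ((Pool.Agent.Q44.SA.pt_iff A y).mpr ⟨hy, hy'⟩)

/-- **Rational points near rational points on determinantal quartic surfaces.** -/
theorem result (K : Type) [Field K] [NumberField K] (A : Fin 4 → Fin 4 → Fin 4 → K)
    -- the surface is irreducible
    (hX : Irreducible (equation A))
    -- the tensor is not degenerate over the algebraic closure
    (hA : Nondegenerate fun i j k => algebraMap K (AlgebraicClosure K) (A i j k)) :
    ∃ (E : Finset (Fin 4 → K)) (N : ℕ), N ≠ 0 ∧ (∀ e ∈ E, e ≠ 0 ∧ (mat A e).det = 0) ∧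
      -- (1) the rational points outside `E`, for finitely many places
      (∀ (r : ℕ) (L : Fin r → Type) [∀ i, NontriviallyNormedField (L i)] [∀ i, IsUltrametricDist (L i)]
        [∀ i, CompleteSpace (L i)] (σ : ∀ i, K →+* L i), (∀ i, DenseRange (σ i)) → (∀ i, ‖(N : L i)‖ = 1) →
        ∀ x : Fin 4 → K, x ≠ 0 → (mat A x).det = 0 → (∀ e ∈ E, ¬ ∃ s : K, s ≠ 0 ∧ x = s • e) →
        ∀ U : ∀ i, Set (Fin 4 → L i), (∀ i, U i ∈ nhds (σ i ∘ x)) →
        ∀ f : MvPolynomial (Fin 4) K,
          (∀ y : Fin 4 → K, y ≠ 0 → (mat A y).det = 0 → (∀ i, ∃ c : L i, c ≠ 0 ∧ c • (σ i ∘ y) ∈ U i) →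
            ∀ t : K, eval (t • y) f = 0) → f ∈ Ideal.span {equation A}) ∧
      -- for one place
      ∀ (L : Type) [NontriviallyNormedField L] [IsUltrametricDist L] [CompleteSpace L] (σ : K →+* L),
        DenseRange σ → ‖(N : L)‖ = 1 →
        -- (2) all local Zariski closures
        (∀ x : Fin 4 → L, x ≠ 0 →
          closureIdeal A σ x = Set.univ ∨ closureIdeal A σ x = Ideal.span {equation A} ∨
            ∃ e ∈ E, (∃ s : L, s ≠ 0 ∧ x = s • (σ ∘ e)) ∧ closureIdeal A σ x = pointIdeal e) ∧
        -- (3) finitely many values
        {J : Set (MvPolynomial (Fin 4) K) | ∃ x : Fin 4 → L, x ≠ 0 ∧ (mat (fun i j k => σ (A i j k)) x).det = 0 ∧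
          J = closureIdeal A σ x}.Finite := by
  have r0 : (Pool.Agent.Q44.SA.Ten.map (algebraMap K (AlgebraicClosure K)) A).Rk := fun w hw => (hA w hw).1
  have r1 : ((Pool.Agent.Q44.SA.Ten.rot A).map (algebraMap K (AlgebraicClosure K))).Rk := fun w hw => (hA w hw).2.1
  have r2 : ((Pool.Agent.Q44.SA.Ten.rot (Pool.Agent.Q44.SA.Ten.rot A)).map (algebraMap K (AlgebraicClosure K))).Rk :=
    fun w hw => (hA w hw).2.2
  obtain ⟨E, N, hN, hE, h1, h2⟩ := Pool.Agent.Q44.SA.allD K A r0 r1 r2 hX
  refine ⟨E, N, hN, hE, h1, ?_⟩
  intro L _ _ _ σ hσ hL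
  have h3 : ∀ x : Fin 4 → L, x ≠ 0 →
          closureIdeal A σ x = Set.univ ∨ closureIdeal A σ x = Ideal.span {equation A} ∨
            ∃ e ∈ E, (∃ s : L, s ≠ 0 ∧ x = s • (σ ∘ e)) ∧ closureIdeal A σ x = pointIdeal e := by
    intro x hx
    rw [closureIdeal_eq]
    exact h2 L σ hσ hL x hx
  refine ⟨h3, ?_⟩
  have hfin : (({Set.univ, (Ideal.span {equation A} : Set (MvPolynomial (Fin 4) K))} :
      Set (Set (MvPolynomial (Fin 4) K))) ∪ (pointIdeal '' (E : Set (Fin 4 → K)))).Finite :=
    (Set.toFinite _).union (E.finite_toSet.image _)
  refine hfin.subset ?_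
  rintro J ⟨x, hx, -, rfl⟩
  rcases h3 x hx with h | h | ⟨e, he, -, h⟩
  · left; left; exact h
  · left; right; exact h
  · right; exact ⟨e, he, h.symm⟩

end Pool.Agent.Results.MP_ed3816_nt.DeterminantalQuartics
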