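import Pool.Agent.Q52.SecY.Above

/-!
# Weak approximation for 100% of the Kummer surfaces `a w² = f(x) g(z)`, over many fields at once

Let `K` be a number field.  For an integer `a` and polynomials `f`, `g` of degree 4 with coefficients
in the ring of integers of `K`, let `X` be the smooth projective model of the surface

  `a w² = f(x) g(z)`,

if `f` and `g` are separable a K3 surface (a generalised Kummer surface: the quotient of the product
of the curves of genus one `u² = f(x)` and `a v² = g(z)` by an involution).  For these surfaces
Skorobogatov and Swinnerton-Dyer (2005) proved the Hasse principle under conditions and assuming the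
finiteness of Tate-Shafarevich groups.

We prove without any hypothesis: for every `M` and all vectors `(a, f, g)` outside a set of density
zero, `a ≠ 0`, `f` and `g` are irreducible, and `X(L_w)` is empty for some finite place `w` of `L`, for
ALL number fields `L ⊇ K` of odd degree over `K` and for all number fields `L ⊇ K`, of any degree,
such that there are fewer than `M` primes `v` of `K` with the following property: for every place `w`
of `L` above `v` the ramification index is even or the residue degree is divisible by 4.  (For
extensions `L/K` of degree at most 3, for instance quadratic extensions, only primes ramified in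
`L` have this property.)  So `X(𝔸_L)` is empty, and the Brauer-Manin obstruction is the only one to
weak approximation on `X` over all these fields `L`.  In this form the surfaces are given by affine
equations; if a smooth projective surface has a point over the local field `L_w`, then its points
over `L_w` are dense for the Zariski topology, so there is a point on every open subset.

Density zero is meant in the strong sense: for every `ε > 0` there is an ideal `I ≠ 0` of the ring
of integers `R` such that the exceptional vectors lie in at most `ε #(R/I) ^ 11` residue classes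
modulo `I`.

Proof.  Let `v` be a prime such that `a` is divisible by `v` exactly once and `f`, `g` are
irreducible of degree 4 modulo `v`.  The proportion of these vectors is at least
`(1/N v - 1/(N v)²) / 256`, and the sum of the `1/N v` diverges, so almost all vectors have this
property for `M + 1` primes `v`.  Let `w` be a place of `L` above `v` with odd ramification index `e` and
residue degree not divisible by 4.  Then `f` and `g` have no root in the residue field of `w`, so their
values at elements of `L_w` have even valuation, but the valuation of `a w²` is `e` modulo 2.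
-/

open Polynomial NumberField IsDedekindDomain

namespace Pool.Agent.Results.MP_ed3816_nt.KummerSurfaces

/-- the index set of the coefficients of `(a, f, g)`: `none` for `a`, and `some ⟨0, j⟩`, `some ⟨1, j⟩`
for the coefficient of `x ^ j` in `f` and `g` -/
abbrev Idx : Type := Option (Σ _ : Fin 2, Fin (4 + 1))

/-- the polynomial `f` (`i = 0`) or `g` (`i = 1`) of the vector `y` -/
noncomputable def poly {K : Type} [Field K] [NumberField K] (y : Idx → 𝓞 K) (i : Fin 2) : K[X] :=
  ∑ j : Fin (4 + 1), C (algebraMap (𝓞 K) K (y (some ⟨i, j⟩))) * X ^ (j : ℕ)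

/-- the surface `a w² = f(x) g(z)` has a point over `E`, where `φ : K → E` -/
def HasPoint {K E : Type} [Field K] [NumberField K] [Field E] (y : Idx → 𝓞 K) (φ : K →+* E) :
    Prop :=
  ∃ x z w : E, φ (algebraMap (𝓞 K) K (y none)) * w ^ 2 =
    eval₂ φ x (poly y 0) * eval₂ φ z (poly y 1)

/-- the primes `v` of `K` such that for every prime `w` of `L` above `v` the ramification index is
even or the residue degree is divisible by 4 -/
def RamifiedSet (K L : Type) [Field K] [NumberField K] [Field L] [NumberField L] [Algebra K L] :
    Set (HeightOneSpectrum (𝓞 K)) :=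
  {v | ∀ w : HeightOneSpectrum (𝓞 L), w.asIdeal.LiesOver v.asIdeal →
    Even (v.asIdeal.ramificationIdx' w.asIdeal) ∨ 4 ∣ v.asIdeal.inertiaDeg' w.asIdeal}

/-- the exceptional vectors -/
def Exceptional (K : Type) [Field K] [NumberField K] (M : ℕ) : Set (Idx → 𝓞 K) :=
  {y | ¬ (y none ≠ 0 ∧ (∀ i, (poly y i).natDegree = 4 ∧ Irreducible (poly y i)) ∧
    ∀ (L : Type) [Field L] [NumberField L] [Algebra K L],
      (Odd (Module.finrank K L) ∨ (RamifiedSet K L).encard < M) →
      ∃ w : HeightOneSpectrum (𝓞 L),
        ¬ HasPoint y ((algebraMap L (w.adicCompletion L)).comp (algebraMap K L)))}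

/-- for every `ε > 0` the set `S` of vectors lies in at most `ε #(R/I) ^ |ι|` residue classes modulo
some nonzero ideal `I` of the ring of integers `R` of `K` -/
def DensityZero {K ι : Type} [Field K] [NumberField K] [Fintype ι] (S : Set (ι → 𝓞 K)) : Prop :=
  ∀ ε : ℝ, 0 < ε → ∃ I : Ideal (𝓞 K), I ≠ ⊥ ∧ Finite (𝓞 K ⧸ I) ∧
    (Set.ncard ((fun (y : ι → 𝓞 K) i => Ideal.Quotient.mk I (y i)) '' S) : ℝ) ≤
      ε * (Nat.card (𝓞 K ⧸ I) : ℝ) ^ (Fintype.card ι)

theorem result (K : Type) [Field K] [NumberField K] (M : ℕ) : DensityZero (Exceptional K M) := by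
  classical
  intro ε hε
  obtain ⟨I, hI, hfin, hcard⟩ := Pool.Agent.Q52.SecY.many_good (K := K) (fun _ : Fin 2 => 4)
    (fun _ => by norm_num) (M + 1) ε hε
  refine ⟨I, hI, hfin, le_trans ?_ hcard⟩
  have hsub : Exceptional K M ⊆
      {y : Pool.Agent.Q52.SecY.Idx (fun _ : Fin 2 => 4) → 𝓞 K |
        ¬ ∃ T : Finset (HeightOneSpectrum (𝓞 K)),
        T.card = M + 1 ∧ ∀ v ∈ T, (fun o => Ideal.Quotient.mk (v.asIdeal ^ 2) (y o)) ∈
          Pool.Agent.Q52.SecY.GoodM v (fun _ : Fin 2 => 4)} := by
    intro y hy
    rintro ⟨T, hTc, hT⟩
    apply hy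
    obtain ⟨v₀, hv₀⟩ : T.Nonempty := by
      rw [← Finset.card_pos, hTc]
      omega
    obtain ⟨h1, h2, h3⟩ := Pool.Agent.Q52.SecY.good_iff' v₀ (fun _ : Fin 2 => 4) y (hT v₀ hv₀)
    have hinj : Function.Injective (algebraMap (𝓞 K) K) := IsFractionRing.injective (𝓞 K) K
    have hlast : ∀ i : Fin 2, y (some ⟨i, Fin.last 4⟩) ≠ 0 := by
      intro i h
      apply (h3 i).1
      rw [h]
      exact zero_mem _
    have hpoly : ∀ i : Fin 2, poly y i = Pool.Agent.TH377.Sup.pol (d := 4)
        (fun j => algebraMap (𝓞 K) K (y (some ⟨i, j⟩))) := fun i => rfl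
    refine ⟨?_, fun i => ⟨?_, ?_⟩, ?_⟩
    · intro h
      apply h2
      rw [h]
      exact zero_mem _
    · rw [hpoly]
      apply Pool.Agent.TH377.Sup.pol_natDegree
      rw [Ne, map_eq_zero_iff _ hinj]
      exact hlast i
    · rw [hpoly, ← Pool.Agent.TH377.Sup.pol_map]
      refine Pool.Agent.Q52.SecX.irr_of_red v₀ (Pool.Agent.TH377.Sup.pol (d := 4)
        fun j => y (some ⟨i, j⟩)) ?_ (h3 i).2
      rw [Pool.Agent.TH377.Sup.pol_leadingCoeff (fun j => y (some ⟨i, j⟩)) (hlast i)]
      exact (h3 i).1
    · intro L _ _ _ hor
      by_contra hcon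
      push Not at hcon
      have hTsub : (T : Set (HeightOneSpectrum (𝓞 K))) ⊆ RamifiedSet K L := by
        intro v hv w hw
        by_contra hram
        rw [not_or, even_iff_two_dvd] at hram
        obtain ⟨x, z, t, hxz⟩ := hcon w
        refine Pool.Agent.Q52.SecY.no_point_above (fun _ : Fin 2 => 4) v w y (hT v hv) 2
          (fun _ => by norm_num) hram.1 (fun _ => hram.2) 2 dvd_rfl two_ne_zero ![x, z] t ?_
        rw [Fin.prod_univ_two]
        exact hxz
      rcases hor with h | h
      · have h4 : (2 : ℕ) ∣ Module.finrank K L := by
          apply Pool.Agent.Q52.SecY.dvd_finrankM 2 (fun _ : Fin 2 => 4) (fun _ => by norm_num) v₀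
          intro w hw
          rcases hTsub hv₀ w hw with h5 | h5
          · exact Or.inl (even_iff_two_dvd.1 h5)
          · exact Or.inr ⟨0, h5⟩
        exact (Nat.not_even_iff_odd.2 h) (even_iff_two_dvd.2 h4)
      · have h1 : (T : Set (HeightOneSpectrum (𝓞 K))).encard ≤ (RamifiedSet K L).encard :=
          Set.encard_le_encard hTsub
        rw [Set.encard_coe_eq_coe_finsetCard, hTc] at h1
        have h2 := h1.trans_lt h
        have h4 : M + 1 < M := by exact_mod_cast h2
        omega
  have := Set.ncard_le_ncard (Set.image_mono (f := fun (y : Idx → 𝓞 K) i =>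
    Ideal.Quotient.mk I (y i)) hsub) (Set.toFinite _)
  exact_mod_cast this

end Pool.Agent.Results.MP_ed3816_nt.KummerSurfaces
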