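import Pool.Agent.Q35.TT.All1

/-!
# K3 surfaces: the closure of the rational points is open at almost all rational points

`K` is a number field and `F` is a form over `K` of bidegree `(4, 4)` such that the curve `F = 0` in
`ℙ¹ × ℙ¹` is smooth. For `e ∈ Kˣ` the double cover `X_e : w² = e F(x)` of `ℙ¹ × ℙ¹` is a K3 surface;
these are the quadratic twists of one of them.

**Theorem.** There are a finite set `T` of points of `ℙ¹ × ℙ¹` and a finite set of lines (fibres of the
two projections of `ℙ¹ × ℙ¹`), with the following property for all `e ∈ Kˣ` and all finite nonempty sets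
`S` of `p`-adic places of degree one (embeddings of `K` into `ℚ_p`) over different primes `p`, with or
without a real place: the closure of `X_e(K)` in the product of the `X_e(K_v)`, `v ∈ S`, is a
neighbourhood of each rational point of `X_e` which lies neither on the branch curve `w = 0`, nor over
`T`, nor over one of the lines.

For `K = ℚ` the sets `S` are all the finite sets of places which contain a finite place. The sets `T` and
of lines depend neither on `S` nor on `e`, so for all but finitely many `e` modulo squares there is no
rational point over `T`.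

Brauer groups of K3 surfaces over number fields are finite modulo constants (Skorobogatov–Zarhin), so if
`X_e(K)` is dense in the Brauer–Manin set then its closure in the product is open at all its points
(at least if the classes of the Brauer group are locally constant near them).

Idea of the proof. `T` consists of the points `x` for which, in both directions, the difference of the
points `(x, w)`, `(x, -w)` of the curve of genus one is torsion. It is finite: by inequalities at all
places of `K` the height of the squares of the derivatives of `F` at `x` is at most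
`4 h(x) + O(log h(x))`, and at least `8 h(x) - O(1)` since the branch curve is smooth. So outside `T` we
can move in one of the two directions, `p`-adically by multiples of a point of infinite order which
is close to the origin. The theorem `OpenAwayFromTorsion` of this folder gives the rest: if the line is
not special then the differences in the other direction are not constant, and we can move in the other
direction, uniformly at the points close to the given one.
-/

set_option autoImplicit false

namespace Pool.Agent.Results.MP_ed3816_nt.OpenAtRationalPoints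

open MvPolynomial

/-- `F` is a form of bidegree `(4, 4)`: of degree `4` in each pair of variables `(j, 0)`, `(j, 1)`, the
coordinates of the `j`-th factor of `ℙ¹ × ℙ¹`. -/
def IsForm {K : Type} [Field K] (F : MvPolynomial (Fin 2 × Fin 2) K) : Prop :=
  ∀ m ∈ F.support, ∀ j, m (j, 0) + m (j, 1) = 4

/-- The curve `F = 0` in `ℙ¹ × ℙ¹` is smooth. -/
def Smooth {K : Type} [Field K] (F : MvPolynomial (Fin 2 × Fin 2) K) : Prop :=
  ∀ x : Fin 2 × Fin 2 → AlgebraicClosure K, (∀ j, ∃ b, x (j, b) ≠ 0) → ∃ p, aeval x (pderiv p F) ≠ 0

/-- The polynomial `F(1, z₀; 1, z₁)`. -/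
noncomputable def affine {K : Type} [Field K] (F : MvPolynomial (Fin 2 × Fin 2) K) :
    MvPolynomial (Fin 2) K :=
  aeval (fun p : Fin 2 × Fin 2 => if p.2 = 0 then 1 else X p.1) F

/-- The point `(z, w)` lies on the double cover `w² = f(z)`. -/
def OnCover {K : Type} [Field K] (f : MvPolynomial (Fin 2) K) (P : (Fin 2 → K) × K) : Prop :=
  P.2 ^ 2 = eval P.1 f

/-- The image of a point under an embedding of fields. -/
def image {K L : Type} [Field K] [Field L] (φ : K →+* L) (P : (Fin 2 → K) × K) : (Fin 2 → L) × L :=
  (fun j => φ (P.1 j), φ P.2)

section closure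

variable {K : Type} [Field K] (f : MvPolynomial (Fin 2) K) {ι : Type} {p : ι → ℕ}
  [∀ i, Fact (p i).Prime]

/-- The closure of the `K`-points in the product of the sets of the `ℚ_[p i]`-points is a neighbourhood
of the point `T` of this product. -/
def OpenAt (σ : ∀ i, K →+* ℚ_[p i]) (T : ∀ i, (Fin 2 → ℚ_[p i]) × ℚ_[p i]) : Prop :=
  ∃ U ∈ nhds T, ∀ S ∈ U, (∀ i, OnCover (map (σ i) f) (S i)) →
    S ∈ closure {S | ∃ P, OnCover f P ∧ S = fun i => image (σ i) P}

/-- The closure of the `K`-points in the product of the set of the real points and of the sets of the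
`ℚ_[p i]`-points is a neighbourhood of the point `T` of this product. -/
def OpenAtReal (σ : ∀ i, K →+* ℚ_[p i]) (τ : K →+* ℝ)
    (T : ((Fin 2 → ℝ) × ℝ) × ∀ i, (Fin 2 → ℚ_[p i]) × ℚ_[p i]) : Prop :=
  ∃ U ∈ nhds T, ∀ S ∈ U, OnCover (map τ f) S.1 → (∀ i, OnCover (map (σ i) f) (S.2 i)) →
    S ∈ closure {S | ∃ P, OnCover f P ∧ S = (image τ P, fun i => image (σ i) P)}

end closure

theorem result_of (h1 : Pool.Agent.Q35.TT.S_OPN) (h2 : Pool.Agent.Q35.TT.S_CHF)
    (K : Type) [Field K] [NumberField K] (F : MvPolynomial (Fin 2 × Fin 2) K)
    (hF : IsForm F) (hs : Smooth F) :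
    -- a finite set of points and finitely many lines `z_j = c`, `c ∈ E j`
    ∃ (T : Set (Fin 2 → K)) (E : Fin 2 → Set K), T.Finite ∧ (∀ j, (E j).Finite) ∧
      -- all quadratic twists and their rational points which do not lie over them, `w ≠ 0`
      ∀ e : K, e ≠ 0 → ∀ (z : Fin 2 → K) (w : K), OnCover (C e * affine F) (z, w) → w ≠ 0 →
        z ∉ T → (∀ j, z j ∉ E j) →
        -- all finite nonempty sets of `p`-adic places of degree one over different primes
        ∀ (ι : Type) [Finite ι] [Nonempty ι] (p : ι → ℕ) [∀ i, Fact (p i).Prime],
          Function.Injective p → ∀ σ : ∀ i, K →+* ℚ_[p i],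
            OpenAt (C e * affine F) σ (fun i => image (σ i) (z, w)) ∧
            -- with a real place
            ∀ τ : K →+* ℝ, OpenAtReal (C e * affine F) σ τ
              (image τ (z, w), fun i => image (σ i) (z, w)) := by
  obtain ⟨hd, hsm, -⟩ := h2 K 2 F hF (fun _ => 0)
  obtain ⟨T, E, hT, hE, h⟩ := h1 K (Pool.Agent.Q35.TT.ch F fun _ => 0) hd (hsm hs)
  refine ⟨T, E, hT, hE, fun e he z w hw hw0 hzT hzE ι _ _ p _ hp σ => ?_⟩
  obtain ⟨h3, h4⟩ := h e he z w hw0 hw hzT hzE ι p hp σ
  exact ⟨h3, h4⟩

/-- **The closure of the rational points is open at almost all rational points.** -/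
theorem result (K : Type) [Field K] [NumberField K] (F : MvPolynomial (Fin 2 × Fin 2) K)
    (hF : IsForm F) (hs : Smooth F) :
    -- a finite set of points and finitely many lines `z_j = c`, `c ∈ E j`
    ∃ (T : Set (Fin 2 → K)) (E : Fin 2 → Set K), T.Finite ∧ (∀ j, (E j).Finite) ∧
      -- all quadratic twists and their rational points which do not lie over them, `w ≠ 0`
      ∀ e : K, e ≠ 0 → ∀ (z : Fin 2 → K) (w : K), OnCover (C e * affine F) (z, w) → w ≠ 0 →
        z ∉ T → (∀ j, z j ∉ E j) →
        -- all finite nonempty sets of `p`-adic places of degree one over different primes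
        ∀ (ι : Type) [Finite ι] [Nonempty ι] (p : ι → ℕ) [∀ i, Fact (p i).Prime],
          Function.Injective p → ∀ σ : ∀ i, K →+* ℚ_[p i],
            OpenAt (C e * affine F) σ (fun i => image (σ i) (z, w)) ∧
            -- with a real place
            ∀ τ : K →+* ℝ, OpenAtReal (C e * affine F) σ τ
              (image τ (z, w), fun i => image (σ i) (z, w)) :=
  result_of Pool.Agent.Q35.TT.opn2 Pool.Agent.Q182.TT.CHF.chf K F hF hs

end Pool.Agent.Results.MP_ed3816_nt.OpenAtRationalPoints
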